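import Mathlib
import Pool.Agent.R618.SC.Asm
import Pool.Agent.R618.SC.JAC
import Pool.Agent.R618.SC.WHI
import Pool.Agent.R618.SC.INT
import Pool.Agent.R618.SC.ORD
import Pool.Agent.R618.SC.A
import Pool.Agent.R618.SC.TB
import Pool.Agent.R618.SC.AB0
import Pool.Agent.R618.SC.Exp
import Pool.Agent.R618.SC.REFL
import Pool.Agent.R618.SC.PSI
import Pool.Agent.R618.SC.AB4

set_option autoImplicit false

/-!
# MP_9a1728_nt, Q1: the strengthened supercongruence holds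

For every odd prime `p` and every `r ≥ 1`, `A_{p,r} ≡ p^r B_{p,r}` modulo `p^(r+3)` if
`p ≡ 1 mod 4`, and modulo `p^(2r+1)` if `p ≡ 3 mod 4`.
-/

namespace Pool.Agent.Results.MP_9a1728_nt.Supercongruence

open Finset

/-- The rising factorial `(a)_k = a (a+1) ⋯ (a+k-1)`. -/
def rise (a : ℚ) (k : ℕ) : ℚ := ∏ i ∈ range k, (a + i)

/-- `A_{p,r} = ∑_{k=0}^{p^r-1} (8k+1) (1/4)_k^5 (1/2)_k / ((3/4)_k k!^5)`. -/
def A (p r : ℕ) : ℚ := ∑ k ∈ range (p ^ r),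
  (8 * (k : ℚ) + 1) * (rise (1 / 4) k ^ 5 * rise (1 / 2) k) / (rise (3 / 4) k * (k.factorial : ℚ) ^ 5)

/-- `B_{p,r} = ∑_{k=0}^{p^r-1} (1/2)_k^3 / k!^3`. -/
def B (p r : ℕ) : ℚ := ∑ k ∈ range (p ^ r), rise (1 / 2) k ^ 3 / (k.factorial : ℚ) ^ 3

/-- `x ≡ y (mod p^m)` for rational numbers: `x - y = p^m u/v` with integers `u`, `v`, `p ∤ v`. -/
def CongMod (p m : ℕ) (x y : ℚ) : Prop :=
  ∃ u v : ℤ, ¬ (p : ℤ) ∣ v ∧ x - y = (p : ℚ) ^ m * ((u : ℚ) / (v : ℚ))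

/-- For every odd prime `p` and every `r ≥ 1`: `A_{p,r} ≡ p^r B_{p,r} (mod p^(r+3))` if
`p ≡ 1 (mod 4)` and `A_{p,r} ≡ p^r B_{p,r} (mod p^(2r+1))` if `p ≡ 3 (mod 4)`. -/
theorem result : ∀ p r : ℕ, p.Prime → p ≠ 2 → 1 ≤ r →
    (p % 4 = 1 → CongMod p (r + 3) (A p r) ((p : ℚ) ^ r * B p r)) ∧
    (p % 4 = 3 → CongMod p (2 * r + 1) (A p r) ((p : ℚ) ^ r * B p r)) := by
  intro p r hp _ hr
  have : Fact p.Prime := ⟨hp⟩
  have hA := R618.SC.tA R618.SC.jac R618.SC.int_ R618.SC.ord1 R618.SC.ord2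
  have hB := R618.SC.tBB R618.SC.whi1 R618.SC.whi2 R618.SC.int_ R618.SC.ord2
  have h0 := R618.SC.ab0 R618.SC.jac
  have h3 := R618.SC.ab3 h0 R618.SC.whi1
  have h4 := R618.SC.ab4 h0 (R618.SC.exp_ R618.SC.whi1) R618.SC.refl_ R618.SC.psi_
  exact ⟨fun h => R618.SC.case1 hA hB h4 h hr, fun h => R618.SC.case3 hA hB h3 h hr⟩

end Pool.Agent.Results.MP_9a1728_nt.Supercongruence
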